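import Pool.Agent.Helper92.RECT.Goals4
import Pool.Agent.Helper28.Few.Macro

/-!
# RECT-PTS: soundness of a path of slabs
-/

namespace Pool.Agent.Helper33.RECT

open Pool.Agent.Helper92.RECT
open Pool.Agent.Helper65.LinSpace Pool.Agent.Helper78.Mpc Pool.Agent.Helper28.Ram Finset
open Pool.Agent.Helper65.OH (Prm OneHead Conf Par InBox co GoodQ Fns)
open Pool.Agent.Helper28.OHS (cellN cs cn cd Rep Box)
open Pool.Agent.Helper28.Few (mcf macro_sound)
open Pool.Agent.Helper28.Sus (rc)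

/-! ### Small facts -/

theorem lt_ne {x y : ℕ} (h : lt01 x y ≠ 0) : x < y := by
  unfold lt01 at h
  by_contra hc
  exact h (if_neg hc)

theorem le_ne {x y : ℕ} (h : le01 x y ≠ 0) : x ≤ y := by
  unfold le01 at h
  by_contra hc
  exact h (if_neg hc)

theorem eq_ne {x y : ℕ} (h : eq01 x y ≠ 0) : x = y := by
  unfold eq01 at h
  by_contra hc
  exact h (if_neg hc)

theorem shf_ne {D : ℕ} (z : ℤ) (p : Fin D → ℤ) (k : Fin D) (hk : k.val ≠ 0) : shf z p k = p k :=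
  if_neg hk

theorem shf_shf {D : ℕ} (z : ℤ) (p : Fin D → ℤ) : shf z (shf (-z) p) = p := by
  funext k
  unfold shf
  by_cases hk : k.val = 0
  · rw [if_pos hk, if_pos hk]
    ring
  · rw [if_neg hk, if_neg hk]

theorem exists_slab (P : ℕ → ℤ) (x : ℤ) : ∀ K : ℕ, P 0 ≤ x → x < P K →
    ∃ i < K, P i ≤ x ∧ x < P (i + 1) := by
  intro K
  induction K with
  | zero =>
    intro h1 h2
    exact absurd (lt_of_le_of_lt h1 h2) (lt_irrefl _)
  | succ K ih =>
    intro h1 h2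
    by_cases hx : x < P K
    · obtain ⟨i, hi, h3⟩ := ih h1 hx
      exact ⟨i, Nat.lt_succ_of_lt hi, h3⟩
    · exact ⟨K, Nat.lt_succ_self K, not_lt.1 hx, h2⟩

theorem mono_slab (P : ℕ → ℤ) (K : ℕ) (hP : ∀ i < K, P i < P (i + 1)) (i j : ℕ) (hij : i ≤ j)
    (hj : j ≤ K) : P i ≤ P j := by
  induction j, hij using Nat.le_induction with
  | base => exact le_rfl
  | succ j _ ih => exact le_trans (ih (by omega)) (le_of_lt (hP j (by omega)))

theorem edge_ne {s : Sp} {tw d : ℕ} {F : Sp → ℕ → ℕ} {v v' : ℕ}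
    (h : s.edge tw d F v v' ≠ 0) :
    s.vP v < s.vP v' ∧ s.vP v' - s.vP v ≤ 2 ^ (s.m.κ - 2) ∧ s.vT tw v ≤ s.vT tw v' ∧
      s.vT tw v' - s.vT tw v < 2 ^ s.te ∧ ∃ o < d, F (s.sE tw v v') o = 1 := by
  unfold Sp.edge at h
  have h1 := left_ne_zero_of_mul h
  have h2 := right_ne_zero_of_mul h
  have h3 := left_ne_zero_of_mul h2
  have h4 := right_ne_zero_of_mul h2
  have h5 := left_ne_zero_of_mul h4
  have h6 := right_ne_zero_of_mul h4
  have h7 := left_ne_zero_of_mul h6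
  have h8 := right_ne_zero_of_mul h6
  refine ⟨lt_ne h1, le_ne h3, le_ne h5, lt_ne h7, ?_⟩
  have h9 : (∑ o ∈ range d, eq01 (F (s.sE tw v v') o) 1) ≠ 0 := by
    have := lt_ne h8
    omega
  obtain ⟨o, ho, h10⟩ := exists_ne_zero_of_sum_ne_zero h9
  exact ⟨o, mem_range.1 ho, eq_ne h10⟩

theorem pth_ne {s : Sp} {tw N k d τ : ℕ} {F : Sp → ℕ → ℕ} (hτ : τ < 2 ^ tw)
    (h : s.pth tw N k d F τ ≠ 0) :
    ∃ a b : ℕ, a < 2 ^ (s.π + 1) ∧ b < 2 ^ (s.π + 1) ∧
      s.btw a b (dig (2 ^ s.G.κ) s.hp 0) ≠ 0 ∧ (s.f ≠ 0 → s.ouc a b ≠ 0) ∧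
      rc (s.edgL tw d F) (s.ZZ tw N) k a (b + 2 ^ (s.π + 1) * τ) ≠ 0 := by
  unfold Sp.pth at h
  obtain ⟨a, ha, h1⟩ := exists_ne_zero_of_sum_ne_zero h
  obtain ⟨b, hb, h2⟩ := exists_ne_zero_of_sum_ne_zero h1
  have h3 := left_ne_zero_of_mul h2
  have h4 := right_ne_zero_of_mul h2
  have h5 := left_ne_zero_of_mul h4
  have h6 := right_ne_zero_of_mul h4
  rw [Nat.mod_eq_of_lt hτ] at h6
  refine ⟨a, b, mem_range.1 ha, mem_range.1 hb, h3, ?_, h6⟩
  intro hf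
  rw [ifz_ne hf] at h5
  exact h5

/-- The conclusion for one slab. -/
def SlabOK {D : ℕ} (A : OneHead D) (w y : List Bool) (s : Sp) (P P' : ℤ) (σ : Slb D)
    (C₀ : Conf D) (e : ℕ) : Prop :=
  LFin σ (lconf A w y σ (lcf P P' 0 0 0 C₀) e) ∧
    (∀ j ≤ e, (lconf A w y σ (lcf P P' 0 0 0 C₀) j).md = 1 →
      InBox s.m.κ (lconf A w y σ (lcf P P' 0 0 0 C₀) j).C.h ∧
      InBox s.G.κ (shf P (lconf A w y σ (lcf P P' 0 0 0 C₀) j).C.h)) ∧
    ((lconf A w y σ (lcf P P' 0 0 0 C₀) e).md = 1 →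
      (s.f = 0 → (lconf A w y σ (lcf P P' 0 0 0 C₀) e).C.q.head? = some true) ∧
      (s.f ≠ 0 → GoodQ s.G ⟨(lconf A w y σ (lcf P P' 0 0 0 C₀) e).C.q,
        shf P (lconf A w y σ (lcf P P' 0 0 0 C₀) e).C.h,
        (lconf A w y σ (lcf P P' 0 0 0 C₀) e).C.M⟩ (cs s.G s.f))) ∧
    (s.f ≠ 0 → ∀ p : Fin D → ℤ, InBox s.G.κ p → cd s.G p = s.al → P ≤ fst p → fst p < P' →
      (∀ k : Fin D, k.val ≠ 0 → -2 ^ (s.m.κ - 1) ≤ p k ∧ p k < 2 ^ (s.m.κ - 1)) →
      cn s.G s.e s.f (cellN s.G.κ (co s.G.κ p) s.m.D) =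
        capN s.m.S (num ((lconf A w y σ (lcf P P' 0 0 0 C₀) e).C.M (shf (-P) p))))

/-- The theorem for the parameters which already contain the configurations and the cell. -/
theorem core (hPTH : PTH_stmt) (hREG : REG_stmt) (hSLS : SLS_stmt) (hGLUE : GLUE_stmt)
    (hLIS : LIS_stmt) (hFCK : FCK_stmt) {D : ℕ} (A : OneHead D) (w y : List Bool) (s : Sp)
    (N tw k d a V Tc h T : ℕ) (F : Sp → ℕ → ℕ) (hB : Bas A w y s N)
    (hF : FS s F d a V Tc h T) (t τ : ℕ) (hRep : Rep s.G s.e s.c (A.conf w y t))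
    (hτ : τ < 2 ^ tw) (hpth : s.pth tw N k d F τ ≠ 0) : ∃ Pa Pb : ℤ,
    (∀ u, t ≤ u → u ≤ t + τ → Rgn s.m.κ Pa Pb (A.conf w y u).h) ∧
    (s.f = 0 → A.AcceptsAt w y (t + τ)) ∧
    (s.f ≠ 0 → GoodQ s.G (A.conf w y (t + τ)) (cs s.G s.f)) ∧
    (s.f ≠ 0 → ∀ p, InBox s.G.κ p → cd s.G p = s.al →
      (Rgn s.m.κ Pa Pb p → cn s.G s.e s.f (cellN s.G.κ (co s.G.κ p) s.m.D) =
        capN s.m.S (num ((A.conf w y (t + τ)).M p))) ∧
      (¬Rgn s.m.κ Pa Pb p → cn s.G s.e s.c (cellN s.G.κ (co s.G.κ p) s.m.D) =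
        cn s.G s.e s.f (cellN s.G.κ (co s.G.κ p) s.m.D))) := by
  obtain ⟨a', b', ha', hb', hbtw, houc, hrc⟩ := pth_ne hτ hpth
  obtain ⟨K, v, -, hv0, hvK, hvZ, hE⟩ := hPTH (s.edge tw d F) _ _ _ _ hrc
  have hpos := (hREG.hp A w y s N hB _ hRep a' b').1 hbtw
  have hq : 0 < 2 ^ (s.π + 1) := by positivity
  -- the number of slabs is positive
  have hK0 : 0 < K := by
    rcases Nat.eq_zero_or_pos K with h0 | h0
    · exfalso
      rw [h0, hv0] at hvK
      have h1 : b' ≤ a' := by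
        rw [hvK]
        exact Nat.le_add_right _ _
      have h2 : (b' : ℤ) ≤ (a' : ℤ) := by exact_mod_cast h1
      linarith [hpos.1, hpos.2]
    · exact h0
  -- the ends
  have hP0 : s.vP (v 0) = a' := by
    unfold Sp.vP
    rw [hv0]
    exact Nat.mod_eq_of_lt ha'
  have hPK : s.vP (v K) = b' := by
    unfold Sp.vP
    rw [hvK, Nat.add_mul_mod_self_left]
    exact Nat.mod_eq_of_lt hb'
  have hdK : v K / 2 ^ (s.π + 1) = τ := by
    rw [hvK, Nat.add_mul_div_left _ _ hq, Nat.div_eq_of_lt hb', Nat.zero_add]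
  have hT0 : s.vT tw (v 0) = 0 := by
    unfold Sp.vT
    rw [hv0, Nat.div_eq_of_lt ha', Nat.zero_mod]
  have hTK : s.vT tw (v K) = τ := by
    unfold Sp.vT
    rw [hdK, Nat.mod_eq_of_lt hτ]
  have hL0 : s.vL tw (v 0) = 0 := by
    unfold Sp.vL
    rw [hv0, Nat.div_eq_of_lt ha', Nat.zero_div]
  have hLK : s.vL tw (v K) = 0 := by
    unfold Sp.vL
    rw [hdK, Nat.div_eq_of_lt hτ]
  have hEd : ∀ i < K, s.vP (v i) < s.vP (v (i + 1)) ∧
      s.vP (v (i + 1)) - s.vP (v i) ≤ 2 ^ (s.m.κ - 2) ∧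
      s.vT tw (v i) ≤ s.vT tw (v (i + 1)) ∧
      s.vT tw (v (i + 1)) - s.vT tw (v i) < 2 ^ s.te ∧
      ∃ o < d, F (s.sE tw (v i) (v (i + 1))) o = 1 := fun i hi => edge_ne (hE i hi)
  -- the data of the slabs
  let P : ℕ → ℤ := fun i => (s.vP (v i) : ℤ) - 2 ^ s.π
  let n : ℕ → ℕ := fun i => s.vT tw (v (i + 1)) - s.vT tw (v i)
  have hsum' : ∀ j ≤ K, ∑ i ∈ range j, n i = s.vT tw (v j) := by
    intro j
    induction j with
    | zero =>
      intro _
      rw [sum_range_zero, hT0]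
    | succ j ih =>
      intro hj
      rw [sum_range_succ, ih (by omega)]
      have := (hEd j (by omega)).2.2.1
      show s.vT tw (v j) + (s.vT tw (v (j + 1)) - s.vT tw (v j)) = _
      omega
  have hsum : ∑ i ∈ range K, n i = τ := by rw [hsum' K le_rfl, hTK]
  have hmD : s.m.D = D := by
    obtain ⟨eA, eN, eW, c₀, hpar⟩ := hB.par
    exact hpar.h_D
  choose LL hLL using hLIS.dec (D := D) s.m hmD
  have hPlt : ∀ i < K, P i < P (i + 1) := by
    intro i hi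
    have h1 := (hEd i hi).1
    have h2 : (s.vP (v i) : ℤ) < (s.vP (v (i + 1)) : ℤ) := by exact_mod_cast h1
    show (s.vP (v i) : ℤ) - 2 ^ s.π < (s.vP (v (i + 1)) : ℤ) - 2 ^ s.π
    linarith
  have hν : ∀ i ≤ K, ∀ j, dig (2 ^ s.m.sg) (s.vL tw (v i)) j ≠ 0 → j + 1 < 2 ^ s.ν := by
    intro i hi j hj
    have hz : dig (2 ^ s.m.sg) 0 j = 0 := by
      unfold dig
      rw [Nat.zero_div, Nat.zero_mod]
    rcases Nat.eq_zero_or_pos i with h0 | h0
    · exfalso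
      rw [h0, hL0] at hj
      exact hj hz
    · rcases Nat.lt_or_ge i K with h1 | h1
      · have h2 := hvZ i h0 h1
        have h3 : s.vL tw (v i) < 2 ^ (s.m.sg * N) := by
          unfold Sp.vL
          apply Nat.div_lt_of_lt_mul
          apply Nat.div_lt_of_lt_mul
          exact h2
        have h4 := hLIS.lt s.m N _ h3 j hj
        have h5 := hB.N
        omega
      · exfalso
        have h2 : i = K := le_antisymm hi h1
        rw [h2, hLK] at hj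
        exact hj hz
  have hRdy : ∀ i < K, Rdy A w y (s.sE tw (v i) (v (i + 1))) (P i) (P (i + 1)) := by
    intro i hi
    obtain ⟨h1, h2, h3, h4, -⟩ := hEd i hi
    refine ⟨hB.pos, hB.par, hB.parG, hB.fns, hB.d1, hB.o0, hB.S, ?_, ?_, h2, hB.κ, ?_, h4, ?_, ?_⟩
    · show ((s.vP (v (i + 1)) - s.vP (v i) : ℕ) : ℤ) =
        ((s.vP (v (i + 1)) : ℤ) - 2 ^ s.π) - ((s.vP (v i) : ℤ) - 2 ^ s.π)
      rw [Nat.cast_sub h1.le]
      ring
    · exact Nat.sub_pos_of_lt h1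
    · show (s.vP (v i) : ℤ) = ((s.vP (v i) : ℤ) - 2 ^ s.π) + 2 ^ s.π
      ring
    · exact hν i hi.le
    · exact hν (i + 1) hi
  -- the slabs
  have hS : ∀ i : ℕ, ∃ e : ℕ, i < K → SlabOK A w y s (P i) (P (i + 1))
      ⟨P (i + 1) - P i, n i, LL (s.vL tw (v i)), LL (s.vL tw (v (i + 1)))⟩ (A.conf w y t) e := by
    intro i
    by_cases hi : i < K
    · obtain ⟨h1, h2, h3, h4, o, ho, hFo⟩ := hEd i hi
      have h5 := hF.eq (s.vP (v i)) (s.vP (v (i + 1)) - s.vP (v i))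
        (s.vT tw (v (i + 1)) - s.vT tw (v i)) (s.vL tw (v i)) (s.vL tw (v (i + 1)))
        s.c s.f s.al h2 o ho
      have h6 : F (s.put (s.vP (v i)) (s.vP (v (i + 1)) - s.vP (v i))
        (s.vT tw (v (i + 1)) - s.vT tw (v i)) (s.vL tw (v i)) (s.vL tw (v (i + 1)))
        s.c s.f s.al) o = 1 := hFo
      rw [h6] at h5
      obtain ⟨T', hT'⟩ := macro_sound
        (A := (((s.sE tw (v i) (v (i + 1))).pr d a V Tc).sh o).fA)
        (N := (((s.sE tw (v i) (v (i + 1))).pr d a V Tc).sh o).fN)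
        (W := (((s.sE tw (v i) (v (i + 1))).pr d a V Tc).sh o).fW)
        (q := (((s.sE tw (v i) (v (i + 1))).pr d a V Tc).sh o).f0)
        (M := (((s.sE tw (v i) (v (i + 1))).pr d a V Tc).sh o).cm) h T
      have h7 : ((((s.sE tw (v i) (v (i + 1))).pr d a V Tc).sh o).conf T').1 = 1 := by
        show (cf (((s.sE tw (v i) (v (i + 1))).pr d a V Tc).sh o).fA
          (((s.sE tw (v i) (v (i + 1))).pr d a V Tc).sh o).fN
          (((s.sE tw (v i) (v (i + 1))).pr d a V Tc).sh o).fW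
          (((s.sE tw (v i) (v (i + 1))).pr d a V Tc).sh o).f0
          (((s.sE tw (v i) (v (i + 1))).pr d a V Tc).sh o).cm T').1 = 1
        rw [← hT']
        exact h5.symm
      obtain ⟨e, he⟩ := hSLS A w y (s.sE tw (v i) (v (i + 1))) (P i) (P (i + 1))
        ⟨P (i + 1) - P i, n i, LL (s.vL tw (v i)), LL (s.vL tw (v (i + 1)))⟩ (hRdy i hi) rfl rfl
        (hLL _) (hLL _) (A.conf w y t) hRep d a V Tc o T' ho hF.hT hF.ha hF.hV h7
      exact ⟨e, fun _ => he⟩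
    · exact ⟨0, fun h => absurd h hi⟩
  choose e he using hS
  have hin : In A w y (P 0) (P K) t := by
    constructor
    · show ((s.vP (v 0) : ℕ) : ℤ) - 2 ^ s.π ≤ _
      rw [hP0]
      exact hpos.1
    · show _ < ((s.vP (v K) : ℕ) : ℤ) - 2 ^ s.π
      rw [hPK]
      exact hpos.2
  have hz0 : ∀ m, LL (s.vL tw (v 0)) m = none := by
    have h1 := hLL (s.vL tw (v 0))
    rw [hL0] at h1 ⊢
    exact hLIS.zero s.m _ h1
  have hzK : ∀ m, LL (s.vL tw (v K)) m = none := by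
    have h1 := hLL (s.vL tw (v K))
    rw [hLK] at h1 ⊢
    exact hLIS.zero s.m _ h1
  obtain ⟨g1, g2⟩ := hGLUE hB.pos A w y t K P (fun i => LL (s.vL tw (v i))) n e hPlt hin hz0 hzK
    (fun i hi => (he i hi).1)
  rw [hsum] at g1 g2
  have hκ : (2 : ℤ) ^ s.m.κ = 2 * 2 ^ (s.m.κ - 1) := by
    have h1 := hB.κ
    have h2 : s.m.κ = (s.m.κ - 1) + 1 := by omega
    conv_lhs => rw [h2]
    rw [pow_succ]
    ring
  refine ⟨P 0, P K, ?_, ?_, ?_, ?_⟩
  · intro u hu1 hu2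
    obtain ⟨i, hi, hI, j, hj, hmd, hh⟩ := g1 u hu1 hu2
    have h1 := ((he i hi).2.1 j hj hmd).1
    rw [hh] at h1
    refine ⟨le_trans (mono_slab P K hPlt 0 i (Nat.zero_le _) hi.le) hI.1,
      lt_of_lt_of_le hI.2 (mono_slab P K hPlt (i + 1) K hi le_rfl), ?_⟩
    intro k hk
    have h2 := h1 k
    rw [shf_ne _ _ _ hk, hκ] at h2
    constructor <;> linarith [h2.1, h2.2]
  · intro hf
    obtain ⟨i, hi, hI, -⟩ := g1 (t + τ) (Nat.le_add_right _ _) le_rfl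
    have hmd := (g2 i hi).md.2 hI
    have h1 := ((he i hi).2.2.1 hmd).1 hf
    have h2 := ((g2 i hi).st hmd).1
    show (A.conf w y (t + τ)).q.head? = some true
    rw [← h2]
    exact h1
  · intro hf
    obtain ⟨i, hi, hI, -⟩ := g1 (t + τ) (Nat.le_add_right _ _) le_rfl
    have hmd := (g2 i hi).md.2 hI
    have h1 := ((he i hi).2.2.1 hmd).2 hf
    have h2 := ((g2 i hi).st hmd).1
    have h3 := ((g2 i hi).st hmd).2
    refine ⟨h1.lt, ?_, ?_, ?_⟩
    · rw [← h2]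
      exact h1.wq
    · rw [← h2]
      exact h1.len
    · intro k
      have h4 := h1.cq k
      have h5 : shf (P i) (lconf A w y
          ⟨P (i + 1) - P i, n i, LL (s.vL tw (v i)), LL (s.vL tw (v (i + 1)))⟩
          (lcf (P i) (P (i + 1)) 0 0 0 (A.conf w y t)) (e i)).C.h = (A.conf w y (t + τ)).h := by
        have h6 := congrArg (shf (P i)) h3
        rw [shf_shf] at h6
        exact h6
      rw [← h5]
      exact h4
  · intro hf p hp hal
    constructor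
    · intro hR
      obtain ⟨i, hi, hi1, hi2⟩ := exists_slab P (fst p) K hR.1 hR.2.1
      have h1 := (he i hi).2.2.2 hf p hp hal hi1 hi2 hR.2.2
      rw [h1]
      have h2 := (g2 i hi).ct p hi1 hi2
      exact congrArg (fun z => capN s.m.S (num z)) h2
    · intro hnR
      have h1 := houc hf
      have h2 := (hREG.al A w y s N hB p hp a' b').not.2 (by
        intro h3
        apply hnR
        have e0 : P 0 = (a' : ℤ) - 2 ^ s.π := by
          show ((s.vP (v 0) : ℕ) : ℤ) - 2 ^ s.π = _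
          rw [hP0]
        have eK : P K = (b' : ℤ) - 2 ^ s.π := by
          show ((s.vP (v K) : ℕ) : ℤ) - 2 ^ s.π = _
          rw [hPK]
        rw [e0, eK]
        exact h3)
      rw [not_not] at h2
      unfold Sp.ouc at h1
      rw [← hal, h2, ifz_zero] at h1
      have h3 := eq_ne h1
      have h4 := (hFCK.lv A w y _ _ _ (hRdy 0 hK0) p hp).2.2
      have h5 : s.nm (cd s.G p) = cellN s.G.κ (co s.G.κ p) s.m.D := h4
      rw [h5] at h3
      exact h3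

/-- PTS. Soundness of a path of slabs. -/
theorem pts (hPTH : PTH_stmt) (hREG : REG_stmt) (hSLS : SLS_stmt) (hGLUE : GLUE_stmt)
    (hLIS : LIS_stmt) (hFCK : FCK_stmt) : PTS_stmt := by
  intro D A w y s N tw k d a V Tc h T F hB hF c f al t τ hRep hτ hpth
  exact core hPTH hREG hSLS hGLUE hLIS hFCK A w y (s.cfa c f al) N tw k d a V Tc h T F
    ⟨hB.pos, hB.par, hB.parG, hB.fns, hB.d1, hB.o0, hB.S, hB.κ, hB.N⟩
    ⟨hF.hd, hF.hT, hF.ha, hF.hV, hF.eq⟩ t τ hRep hτ hpth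

end Pool.Agent.Helper33.RECT
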